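import Pool.Agent.H80.Complete

/-!
# Truncated solutions of generic quadratic systems are complete for VP (MP_f18ce0_lc)

The classes `VP K` and `VPws K` are defined in `Pool.Agent.H80.Circuit`, following the problem
file; the family `treeFamily K` in `Pool.Agent.H80.Tree`.
-/

set_option autoImplicit false

namespace Pool.Agent.H80.Old.TreeFamily

open Pool.Agent.H80

universe u

/-- The truncated solutions of the generic quadratic systems form a p-family in `VP`, every
p-family in `VP` is a p-projection of it, and `VP = VP_ws` if and only if it is in `VP_ws`. -/
theorem result (K : Type u) [Field K] :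
    treeFamily K ∈ VP K ∧ (∀ F ∈ VP K, F.ProjLE (treeFamily K)) ∧
      (VP K = VPws K ↔ treeFamily K ∈ VPws K) :=
  ⟨treeFamily_mem_VP K, fun F hF => projLE_treeFamily K F hF, VP_eq_VPws_iff K⟩

end Pool.Agent.H80.Old.TreeFamily
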